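import Pool.Agent.Helper65.OH.Goals

/-!
# Packet MLS of the campaign ONEHEAD: the functions of the machine on numbers are in the class `LS`
-/

set_option linter.unusedSectionVars false
set_option exponentiation.threshold 10000

namespace Pool.Agent.Helper54.OH

open Pool.Agent.Helper65.LinSpace Pool.Agent.Helper78.Mpc Pool.Agent.Helper28.Ram
open Pool.Agent.Helper65.OH Finset

variable {α β : Type} [Ctx α] [Ctx β]

theorem LS_tab {d : α → ℕ → ℕ} {q m C B : α → ℕ} (hd : LS (fun p : α × ℕ => d p.1 p.2))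
    (hq : LS q) (hm : LS m) (hC : LS C) (hB : LS B) (hq0 : ∀ a, 0 < q a)
    (hd' : ∀ a, ∀ i < m a, d a i ≤ B a)
    (hb : ∀ a, q a ^ m a ≤ C a) : LS (fun a => tab (q a) (m a) (d a)) := by
  have h1 : LS (fun a => ∑ i ∈ range (m a), d a i * capPow (q a) i (C a)) := by
    refine LS.sum_le (f := fun a i => d a i * capPow (q a) i (C a))
      (B := fun a => B a * (C a + 1)) ?_ hm (by fun_prop) ?_
    · fun_prop
    · intro a i hi
      exact Nat.mul_le_mul (hd' a i hi) (min_le_right _ _)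
  refine LS.congr h1 fun a => ?_
  refine sum_congr rfl fun i hi => ?_
  have hi' := mem_range.1 hi
  have h3 : q a ^ i ≤ C a := (Nat.pow_le_pow_right (hq0 a) hi'.le).trans (hb a)
  rw [capPow, min_eq_left (by omega)]

theorem LS_accN {v : α → ℕ} (hv : LS v) : LS (fun a => accN (v a)) := by
  unfold accN
  fun_prop

theorem ifz_def (c x y : ℕ) : ifz c x y = if c = 0 then x else y := rfl

/-- A family of parameters in the class. -/
structure PF (m : α → Prm) (C : α → ℕ) : Prop where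
  eA : LS (fun z => (m z).eA)
  eN : LS (fun z => (m z).eN)
  eW : LS (fun z => (m z).eW)
  st : LS (fun z => (m z).st)
  hΛ : LS (fun z => (m z).Λ)
  hβ : LS (fun z => (m z).β)
  hB : LS (fun z => (m z).B)
  x : LS (fun z => (m z).x)
  y : LS (fun z => (m z).y)
  S : LS (fun z => (m z).S)
  κ : LS (fun z => (m z).κ)
  D : LS (fun z => (m z).D)
  d : LS (fun z => (m z).d)
  o : LS (fun z => (m z).o)
  Tc : LS (fun z => (m z).Tc)
  σ : LS (fun z => (m z).σ)
  a : LS (fun z => (m z).a)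
  hC : LS C
  b1 : ∀ z, 0 < (m z).β
  b2 : ∀ z, (m z).β ^ (m z).Λ ≤ C z
  b3 : ∀ z, 2 ^ ((m z).S + 1) ≤ C z
  b4 : ∀ z, 2 ^ (m z).κ ≤ C z
  b5 : ∀ z, (2 ^ (m z).κ) ^ (m z).D ≤ C z
  b6 : ∀ z, 0 < (m z).d
  b7 : ∀ z, (m z).d ^ (m z).D ≤ C z
  b8 : ∀ z, (2 ^ ((m z).S + 1)) ^ ((m z).d ^ (m z).D) ≤ C z
  b9 : ∀ z, 2 ^ (m z).σ ≤ C z
  b10 : ∀ z, 2 ^ (m z).a ≤ C z

namespace PF

variable {m : α → Prm} {C : α → ℕ}

theorem comp (h : PF m C) {π : β → α} (hπ : LS π) :
    PF (fun b => m (π b)) (fun b => C (π b)) where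
  eA := LS.comp (g := fun z => (m z).eA) h.eA hπ
  eN := LS.comp (g := fun z => (m z).eN) h.eN hπ
  eW := LS.comp (g := fun z => (m z).eW) h.eW hπ
  st := LS.comp (g := fun z => (m z).st) h.st hπ
  hΛ := LS.comp (g := fun z => (m z).Λ) h.hΛ hπ
  hβ := LS.comp (g := fun z => (m z).β) h.hβ hπ
  hB := LS.comp (g := fun z => (m z).B) h.hB hπ
  x := LS.comp (g := fun z => (m z).x) h.x hπ
  y := LS.comp (g := fun z => (m z).y) h.y hπ
  S := LS.comp (g := fun z => (m z).S) h.S hπ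
  κ := LS.comp (g := fun z => (m z).κ) h.κ hπ
  D := LS.comp (g := fun z => (m z).D) h.D hπ
  d := LS.comp (g := fun z => (m z).d) h.d hπ
  o := LS.comp (g := fun z => (m z).o) h.o hπ
  Tc := LS.comp (g := fun z => (m z).Tc) h.Tc hπ
  σ := LS.comp (g := fun z => (m z).σ) h.σ hπ
  a := LS.comp (g := fun z => (m z).a) h.a hπ
  hC := LS.comp (g := C) h.hC hπ
  b1 := fun z => h.b1 (π z)
  b2 := fun z => h.b2 (π z)
  b3 := fun z => h.b3 (π z)
  b4 := fun z => h.b4 (π z)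
  b5 := fun z => h.b5 (π z)
  b6 := fun z => h.b6 (π z)
  b7 := fun z => h.b7 (π z)
  b8 := fun z => h.b8 (π z)
  b9 := fun z => h.b9 (π z)
  b10 := fun z => h.b10 (π z)

variable (h : PF m C)
include h

theorem pS : LS (fun z => 2 ^ ((m z).S + 1)) :=
  LS.pow_of_le (f := fun _ => 2) (LS.const 2) (LS.add h.S (LS.const 1)) h.hC h.b3

theorem pκ : LS (fun z => 2 ^ (m z).κ) :=
  LS.pow_of_le (f := fun _ => 2) (LS.const 2) h.κ h.hC h.b4

theorem pκ' : LS (fun z => 2 ^ ((m z).κ - 1)) :=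
  LS.pow_of_le (f := fun _ => 2) (LS.const 2) (LS.sub h.κ (LS.const 1)) h.hC fun z =>
    (Nat.pow_le_pow_right (by norm_num) (Nat.sub_le _ _)).trans (h.b4 z)

theorem pd : LS (fun z => (m z).d ^ (m z).D) := LS.pow_of_le h.d h.D h.hC h.b7

theorem sg_eq (z : α) : 2 ^ (m z).sg = 2 ^ ((m z).S + 1) * (2 ^ (m z).κ) ^ (m z).D := by
  unfold Prm.sg
  rw [pow_add, pow_mul]

theorem psg : LS (fun z => 2 ^ (m z).sg) := by
  have h1 : LS (fun z => (2 ^ (m z).κ) ^ (m z).D) := LS.pow_of_le h.pκ h.D h.hC h.b5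
  exact LS.congr (LS.mul h.pS h1) fun z => h.sg_eq z

theorem pσ : LS (fun z => 2 ^ (m z).σ) :=
  LS.pow_of_le (f := fun _ => 2) (LS.const 2) h.σ h.hC h.b9

theorem pa : LS (fun z => 2 ^ (m z).a) :=
  LS.pow_of_le (f := fun _ => 2) (LS.const 2) h.a h.hC h.b10

variable {q v k u : α → ℕ}

theorem wq (hq : LS q) : LS (fun z => (m z).wq (q z)) := LS.mod hq h.pS

theorem cq (hq : LS q) (hk : LS k) : LS (fun z => (m z).cq (q z) (k z)) :=
  LS.dig h.pκ (LS.div hq h.pS) hk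

theorem cq_lt (z : α) (q k : ℕ) : (m z).cq q k < 2 ^ (m z).κ := dig_lt (by positivity) _ _

theorem blk (hq : LS q) : LS (fun z => (m z).blk (q z)) := by
  have h1 := h.comp (π := fun p : α × ℕ => p.1) LS.fst
  have h2 : LS (fun p : α × ℕ => (m p.1).cq (q p.1) p.2) :=
    h1.cq (LS.comp (g := q) hq LS.fst) LS.snd
  exact LS_tab (q := fun z => 2 ^ (m z).κ) (m := fun z => (m z).D)
    (d := fun z k => ((m z).cq (q z) k + (m z).o) / (m z).d) (C := C)
    (B := fun z => 2 ^ (m z).κ + (m z).o) (LS.div (LS.add h2 h1.o) h1.d) h.pκ h.D h.hC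
    (LS.add h.pκ h.o) (fun z => by positivity)
    (fun z i _ => (Nat.div_le_self _ _).trans (Nat.add_le_add_right (h.cq_lt z _ _).le _)) h.b5

theorem cel (hq : LS q) : LS (fun z => (m z).cel (q z)) := by
  have h1 := h.comp (π := fun p : α × ℕ => p.1) LS.fst
  have h2 : LS (fun p : α × ℕ => (m p.1).cq (q p.1) p.2) :=
    h1.cq (LS.comp (g := q) hq LS.fst) LS.snd
  exact LS_tab (q := fun z => (m z).d) (m := fun z => (m z).D)
    (d := fun z k => ((m z).cq (q z) k + (m z).o) % (m z).d) (C := C)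
    (B := fun z => (m z).d) (LS.mod (LS.add h2 h1.o) h1.d) h.d h.D h.hC
    h.d h.b6 (fun z i _ => (Nat.mod_lt _ (h.b6 z)).le) h.b7

theorem fn {e : α → ℕ} (he : LS e) (hu : LS u) :
    LS (fun z => capN (m z).S (fnN (e z) (m z).S (m z).Λ (m z).β (m z).B (u z))) :=
  LS.capN h.S (LS.fnN he h.S h.hΛ h.hβ h.hB hu h.hC h.b1 h.b2 h.b3)

theorem adN (hq : LS q) : LS (fun z => (m z).adN (q z)) := h.fn h.eA (h.wq hq)

theorem adr (hq : LS q) : LS (fun z => (m z).adr (q z)) :=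
  LS.sub (h.adN hq) (LS.pow_log (h.adN hq))

omit h in
theorem lw (hu : LS u) : LS (fun z => Prm.lw (u z)) := by
  unfold Prm.lw
  fun_prop

theorem vq (hq : LS q) (hv : LS v) : LS (fun z => (m z).vq (q z) (v z)) :=
  LS.dig h.pS hv (h.cel hq)

theorem inpN (hq : LS q) (hv : LS v) : LS (fun z => (m z).inpN (q z) (v z)) :=
  LS.catN (LS.sdN (h.wq hq)) (LS.catN (lw (LS.letN h.x (h.adr hq)))
    (LS.catN (lw (LS.letN h.y (h.adr hq))) (h.vq hq hv)))

theorem nu (hq : LS q) (hv : LS v) : LS (fun z => (m z).nu (q z) (v z)) :=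
  h.fn h.eN (h.inpN hq hv)

theorem nw (hq : LS q) (hv : LS v) : LS (fun z => (m z).nw (q z) (v z)) :=
  h.fn h.eW (h.inpN hq hv)

omit h in
theorem pl (hu : LS u) (hk : LS k) : LS (fun z => Prm.pl (u z) (k z)) := by
  unfold Prm.pl
  fun_prop

omit h in
theorem mi (hu : LS u) (hk : LS k) : LS (fun z => Prm.mi (u z) (k z)) := by
  unfold Prm.mi
  fun_prop

theorem viol (hq : LS q) (hu : LS u) : LS (fun z => (m z).viol (q z) (u z)) := by
  have h1 := h.comp (π := fun p : α × ℕ => p.1) LS.fst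
  have hq1 : LS (fun p : α × ℕ => q p.1) := LS.comp (g := q) hq LS.fst
  have hu1 : LS (fun p : α × ℕ => u p.1) := LS.comp (g := u) hu LS.fst
  have h2 : LS (fun p : α × ℕ => (m p.1).cq (q p.1) p.2) := h1.cq hq1 LS.snd
  have h3 : LS (fun p : α × ℕ => Prm.pl (u p.1) p.2) := pl hu1 LS.snd
  have h4 : LS (fun p : α × ℕ => Prm.mi (u p.1) p.2) := mi hu1 LS.snd
  have h5 : LS (fun p : α × ℕ => 1 - le01 (Prm.mi (u p.1) p.2)
      ((m p.1).cq (q p.1) p.2 + Prm.pl (u p.1) p.2) *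
      lt01 ((m p.1).cq (q p.1) p.2 + Prm.pl (u p.1) p.2 - Prm.mi (u p.1) p.2)
        (2 ^ (m p.1).κ)) :=
    LS.sub (LS.const 1) (LS.mul (LS.le01 h4 (LS.add h2 h3))
      (LS.lt01 (LS.sub (LS.add h2 h3) h4) h1.pκ))
  exact LS.sum_le (N := fun z => (m z).D) (B := fun _ => 1)
    (f := fun z k => 1 - le01 (Prm.mi (u z) k) ((m z).cq (q z) k + Prm.pl (u z) k) *
      lt01 ((m z).cq (q z) k + Prm.pl (u z) k - Prm.mi (u z) k) (2 ^ (m z).κ))
    h5 h.D (LS.const 1) (fun z i _ => Nat.sub_le _ _)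

theorem ok (hq : LS q) (hv : LS v) : LS (fun z => (m z).ok (q z) (v z)) :=
  LS.mul (h.adN hq) (LS.mul (h.vq hq hv) (LS.mul (h.nu hq hv) (LS.mul (h.nw hq hv)
    (LS.eq01 (h.viol hq (h.nu hq hv)) (LS.const 0)))))

theorem mkL {c : α → ℕ → ℕ} {Bd : α → ℕ} (hu : LS u) (hc : LS (fun p : α × ℕ => c p.1 p.2))
    (hBd : LS Bd) (hb : ∀ z, ∀ k < (m z).D, c z k ≤ Bd z) :
    LS (fun z => (m z).mk' (u z) (c z)) :=
  LS.add hu (LS.mul h.pS (LS_tab (q := fun z => 2 ^ (m z).κ) (m := fun z => (m z).D)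
    (d := c) (C := C) (B := Bd) hc h.pκ h.D h.hC hBd (fun z => by positivity) hb h.b5))

omit h in
theorem pl_le (u k : ℕ) : Prm.pl u k ≤ 1 := by
  unfold Prm.pl eq01
  split_ifs <;> omega

theorem sq (hq : LS q) (hv : LS v) : LS (fun z => (m z).sq (q z) (v z)) := by
  have h1 := h.comp (π := fun p : α × ℕ => p.1) LS.fst
  have hq1 : LS (fun p : α × ℕ => q p.1) := LS.comp (g := q) hq LS.fst
  have hv1 : LS (fun p : α × ℕ => v p.1) := LS.comp (g := v) hv LS.fst
  have h2 : LS (fun p : α × ℕ => (m p.1).cq (q p.1) p.2) := h1.cq hq1 LS.snd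
  have hnu : LS (fun p : α × ℕ => (m p.1).nu (q p.1) (v p.1)) := h1.nu hq1 hv1
  have h3 : LS (fun p : α × ℕ => Prm.pl ((m p.1).nu (q p.1) (v p.1)) p.2) := pl hnu LS.snd
  have h4 : LS (fun p : α × ℕ => Prm.mi ((m p.1).nu (q p.1) (v p.1)) p.2) := mi hnu LS.snd
  have h5 : LS (fun z => (m z).mk' 0 ((m z).cq (q z))) :=
    h.mkL (u := fun _ => 0) (c := fun z => (m z).cq (q z)) (Bd := fun z => 2 ^ (m z).κ)
      (LS.const 0) h2 h.pκ (fun z k _ => (h.cq_lt z _ _).le)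
  have h6 : LS (fun z => (m z).mk' ((m z).nu (q z) (v z)) fun k => (m z).cq (q z) k +
      Prm.pl ((m z).nu (q z) (v z)) k - Prm.mi ((m z).nu (q z) (v z)) k) :=
    h.mkL (u := fun z => (m z).nu (q z) (v z)) (c := fun z k => (m z).cq (q z) k +
      Prm.pl ((m z).nu (q z) (v z)) k - Prm.mi ((m z).nu (q z) (v z)) k)
      (Bd := fun z => 2 ^ (m z).κ + 1) (h.nu hq hv) (LS.sub (LS.add h2 h3) h4)
      (LS.add h.pκ (LS.const 1)) (fun z k _ => (Nat.sub_le _ _).trans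
        (Nat.add_le_add (h.cq_lt z _ _).le (pl_le _ _)))
  exact LS.ifz (LS_accN (h.wq hq)) (LS.ifz (h.ok hq hv) h5 h6) hq

omit h [Ctx α] in
theorem digit_lt (z : α) (q v c : ℕ) : ifz (eq01 c ((m z).cel q)) (dig (2 ^ ((m z).S + 1)) v c)
    ((m z).nw q v) < 2 ^ ((m z).S + 1) := by
  rw [ifz_def]
  split_ifs
  · exact dig_lt (by positivity) _ _
  · exact capN_lt _ _

theorem sv (hq : LS q) (hv : LS v) : LS (fun z => (m z).sv (q z) (v z)) := by
  have h1 := h.comp (π := fun p : α × ℕ => p.1) LS.fst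
  have hq1 : LS (fun p : α × ℕ => q p.1) := LS.comp (g := q) hq LS.fst
  have hv1 : LS (fun p : α × ℕ => v p.1) := LS.comp (g := v) hv LS.fst
  have h2 : LS (fun p : α × ℕ => ifz (eq01 p.2 ((m p.1).cel (q p.1)))
      (dig (2 ^ ((m p.1).S + 1)) (v p.1) p.2) ((m p.1).nw (q p.1) (v p.1))) :=
    LS.ifz (LS.eq01 LS.snd (h1.cel hq1)) (LS.dig h1.pS hv1 LS.snd) (h1.nw hq1 hv1)
  have h3 : LS (fun z => tab (2 ^ ((m z).S + 1)) ((m z).d ^ (m z).D) fun c =>
      ifz (eq01 c ((m z).cel (q z))) (dig (2 ^ ((m z).S + 1)) (v z) c)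
        ((m z).nw (q z) (v z))) :=
    LS.tab (q := fun z => 2 ^ ((m z).S + 1)) (m := fun z => (m z).d ^ (m z).D)
      (d := fun z c => ifz (eq01 c ((m z).cel (q z))) (dig (2 ^ ((m z).S + 1)) (v z) c)
        ((m z).nw (q z) (v z))) (C := C) h2 h.pS h.pd h.hC
      (fun z i _ => digit_lt z _ _ _) h.b8
  exact LS.ifz (LS.add (LS_accN (h.wq hq)) (LS.eq01 (h.ok hq hv) (LS.const 0))) h3 hv

theorem loc {b w : α → ℕ} (hb : LS b) (hw : LS w) : LS (fun z => (m z).loc (b z) (w z)) := by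
  have h1 : LS (fun z => w z % 2 ^ (m z).sg) := LS.mod hw h.psg
  have h2 : LS (fun z => w z / 2 ^ (m z).sg) := LS.div hw h.psg
  exact LS.ifz (LS.eq01 (h.blk h1) hb) hw (LS.add (h.sq h1 h2) (LS.mul h.psg (h.sv h1 h2)))

end PF

/-! ### Bounds -/

section bounds
variable (m : Prm)

theorem psg_eq : 2 ^ m.sg = 2 ^ (m.S + 1) * (2 ^ m.κ) ^ m.D := by
  unfold Prm.sg
  rw [pow_add, pow_mul]

theorem mk_lt {u : ℕ} {c : ℕ → ℕ} (hu : u < 2 ^ (m.S + 1)) (hc : ∀ k < m.D, c k < 2 ^ m.κ) :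
    m.mk' u c < 2 ^ m.sg := by
  have h1 := tab_lt hc
  rw [psg_eq]
  unfold Prm.mk'
  calc u + 2 ^ (m.S + 1) * tab (2 ^ m.κ) m.D c
      < 2 ^ (m.S + 1) + 2 ^ (m.S + 1) * tab (2 ^ m.κ) m.D c := Nat.add_lt_add_right hu _
    _ = 2 ^ (m.S + 1) * (tab (2 ^ m.κ) m.D c + 1) := by ring
    _ ≤ _ := Nat.mul_le_mul_left _ h1

theorem sq_lt {q : ℕ} (v : ℕ) (hq : q < 2 ^ m.sg) : m.sq q v < 2 ^ m.sg := by
  unfold Prm.sq
  rw [ifz_def, ifz_def]
  split_ifs with h1 h2
  · exact mk_lt m (by positivity) (fun k _ => dig_lt (by positivity) _ _)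
  · apply mk_lt m (capN_lt _ _)
    intro k hk
    unfold Prm.ok at h2
    have h3 : eq01 (m.viol q (m.nu q v)) 0 ≠ 0 := by
      intro h4
      apply h2
      rw [h4]
      simp
    have h4 : m.viol q (m.nu q v) = 0 := by
      by_contra h5
      apply h3
      unfold eq01
      rw [if_neg h5]
    unfold Prm.viol at h4
    rw [sum_eq_zero_iff] at h4
    have h5 := h4 k (mem_range.2 hk)
    by_contra h6
    have h7 : lt01 (m.cq q k + Prm.pl (m.nu q v) k - Prm.mi (m.nu q v) k) (2 ^ m.κ) = 0 := by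
      unfold lt01
      rw [if_neg h6]
    rw [h7] at h5
    simp at h5
  · exact hq

theorem sv_le (q v : ℕ) : m.sv q v ≤ max v ((2 ^ (m.S + 1)) ^ (m.d ^ m.D)) := by
  unfold Prm.sv
  rw [ifz_def]
  split_ifs
  · refine le_trans (tab_lt ?_).le (le_max_right _ _)
    intro c _
    rw [ifz_def]
    split_ifs
    · exact dig_lt (by positivity) _ _
    · exact capN_lt _ _
  · exact le_max_left _ _

theorem loc_lt (b V z : ℕ) (hV : (2 ^ (m.S + 1)) ^ (m.d ^ m.D) ≤ V)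
    (hz : z < 2 ^ m.sg * (V + 1)) : m.loc b z < 2 ^ m.sg * (V + 1) := by
  unfold Prm.loc
  rw [ifz_def]
  split_ifs
  · exact hz
  · have hp : 0 < 2 ^ m.sg := by positivity
    have h1 := sq_lt m (q := z % 2 ^ m.sg) (z / 2 ^ m.sg) (Nat.mod_lt _ hp)
    have h2 := sv_le m (z % 2 ^ m.sg) (z / 2 ^ m.sg)
    have h3 : z / 2 ^ m.sg ≤ V := by
      have := (Nat.div_lt_iff_lt_mul hp).2 (by rw [mul_comm]; exact hz : z < (V + 1) * 2 ^ m.sg)
      omega
    have h4 : m.sv (z % 2 ^ m.sg) (z / 2 ^ m.sg) ≤ V := h2.trans (max_le h3 hV)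
    calc _ < 2 ^ m.sg + 2 ^ m.sg * m.sv (z % 2 ^ m.sg) (z / 2 ^ m.sg) :=
          Nat.add_lt_add_right h1 _
      _ = 2 ^ m.sg * (m.sv (z % 2 ^ m.sg) (z / 2 ^ m.sg) + 1) := by ring
      _ ≤ _ := Nat.mul_le_mul_left _ (by omega)

theorem run_lt (q v C : ℕ) (hC : (2 ^ (m.S + 1)) ^ (m.d ^ m.D) ≤ C) (i : ℕ) :
    nrec (q % 2 ^ m.sg + 2 ^ m.sg * v) (fun _ z => m.loc (m.blk (q % 2 ^ m.sg)) z) i <
      2 ^ m.sg * (v + C + 1) := by
  induction i with
  | zero =>
    rw [nrec_zero]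
    have hp : 0 < 2 ^ m.sg := by positivity
    have h1 := Nat.mod_lt q hp
    calc _ < 2 ^ m.sg + 2 ^ m.sg * v := Nat.add_lt_add_right h1 _
      _ = 2 ^ m.sg * (v + 1) := by ring
      _ ≤ _ := Nat.mul_le_mul_left _ (by omega)
  | succ i ih =>
    rw [nrec_succ]
    exact loc_lt m _ _ _ (hC.trans (Nat.le_add_left _ _)) ih

end bounds

namespace PF

variable {m : α → Prm} {C : α → ℕ} (h : PF m C) {q v : α → ℕ}
include h

theorem run (hq : LS q) (hv : LS v) : LS (fun z => (m z).run (q z) (v z)) := by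
  have h1 : LS (fun z => q z % 2 ^ (m z).sg) := LS.mod hq h.psg
  have hc := h.comp (π := fun p : α × ℕ × ℕ => p.1) LS.fst
  have h2 : LS (fun p : α × ℕ × ℕ => (m p.1).blk (q p.1 % 2 ^ (m p.1).sg)) :=
    LS.comp (g := fun z => (m z).blk (q z % 2 ^ (m z).sg)) (h.blk h1) LS.fst
  have h3 : LS (fun p : α × ℕ × ℕ => (m p.1).loc ((m p.1).blk (q p.1 % 2 ^ (m p.1).sg)) p.2.2) :=
    hc.loc h2 (LS.comp (g := fun p : ℕ × ℕ => p.2) LS.snd LS.snd)
  exact LS.nrec (G := fun z => q z % 2 ^ (m z).sg + 2 ^ (m z).sg * v z) (N := fun z => (m z).Tc)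
    (K := fun z _ w => (m z).loc ((m z).blk (q z % 2 ^ (m z).sg)) w)
    (C := fun z => 2 ^ (m z).sg * (v z + C z + 1))
    (LS.add h1 (LS.mul h.psg hv)) h.Tc
    (LS.mul h.psg (LS.add (LS.add hv h.hC) (LS.const 1))) h3
    (fun z i _ => (run_lt (m z) (q z) (v z) (C z) (h.b8 z) i).le)

theorem fA (hq : LS q) : LS (fun z => (m z).fA (q z)) := LS.mod (h.blk hq) h.pσ

theorem fN (hq : LS q) (hv : LS v) : LS (fun z => (m z).fN (q z) (v z)) :=
  LS.mod (LS.mod (h.run hq hv) h.psg) h.pσ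

theorem fW (hq : LS q) (hv : LS v) : LS (fun z => (m z).fW (q z) (v z)) :=
  LS.mod (LS.div (h.run hq hv) h.psg) h.pa

theorem q0 : LS (fun z => (m z).q0) := by
  have h1 : LS (fun p : α × ℕ => 2 ^ ((m p.1).κ - 1)) :=
    LS.comp (g := fun z => 2 ^ ((m z).κ - 1)) h.pκ' LS.fst
  exact LS.mod (h.mkL (u := fun z => capN (m z).S (m z).st)
    (c := fun z _ => 2 ^ ((m z).κ - 1)) (Bd := fun z => 2 ^ ((m z).κ - 1))
    (LS.capN h.S h.st) h1 h.pκ' (fun z k _ => le_rfl)) h.pσ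

theorem M0 : LS (fun z => (m z).M0) :=
  LS.mod (LS_tab (q := fun z => 2 ^ ((m z).S + 1)) (m := fun z => (m z).d ^ (m z).D)
    (d := fun _ _ => 1) (C := C) (B := fun _ => 1) (LS.const 1) h.pS h.pd h.hC (LS.const 1)
    (fun z => by positivity) (fun _ _ _ => le_rfl) h.b8) h.pa

end PF

/-! ### The parameters -/

theorem LS_gR {n : α → ℕ} (hn : LS n) : LS (fun a => gR (n a)) := by
  unfold gR
  fun_prop

theorem LS_CR {x : α → ℕ} (hx : LS x) : LS (fun a => CR (x a)) := by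
  unfold CR
  exact (LS.add hx (LS.const 2)).pow_const 8000

theorem two_pow_le_CR {x t : ℕ} (h : t ≤ 100 * (Nat.log 2 x + 1)) : 2 ^ t ≤ CR x := by
  refine (Nat.pow_le_pow_right (by norm_num) h).trans ((two_pow_log_le x 100).trans ?_)
  unfold CR
  exact Nat.pow_le_pow_right (by omega) (by norm_num)

theorem gR_pos (n : ℕ) : 0 < gR n := Nat.succ_pos _

theorem gR_sq_le (n : ℕ) : gR n * gR n ≤ 4 * (n + 1) := by
  unfold gR
  have h1 : Nat.sqrt (n / ll n) * Nat.sqrt (n / ll n) ≤ n / ll n := Nat.sqrt_le _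
  have h2 : n / ll n ≤ n := Nat.div_le_self _ _
  have h3 : Nat.sqrt (n / ll n) ≤ n / ll n := Nat.sqrt_le_self _
  nlinarith

theorem gR_le_sq (n : ℕ) : gR n ≤ gR n * gR n := Nat.le_mul_of_pos_left _ (gR_pos n)

theorem sS_lt (n S : ℕ) : sS n S + 1 ≤ gR n := by
  have h1 : sS n S ≤ gR n - 1 := min_le_right _ _
  have h2 := gR_pos n
  omega

theorem sd_spec (h : OKS_stmt) (n S D : ℕ) :
    0 < sd' n (sS n S) D ∧ (sS n S + 1) * sd' n (sS n S) D ^ D ≤ gR n * gR n := by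
  rcases Nat.eq_zero_or_pos D with h0 | h0
  · subst h0
    have h1 := sS_lt n S
    have h2 := gR_le_sq n
    constructor
    · unfold sd'
      have h3 := gR_pos n
      apply sum_pos
      · intro j _
        unfold le01
        rw [if_pos (by simp only [pow_zero]; omega)]
        norm_num
      · rw [nonempty_range_iff]
        positivity
    · rw [pow_zero]
      omega
  · exact ⟨(h.2 n S D h0).1, (h.2 n S D h0).2.1⟩

theorem LS_sd {n S D : α → ℕ} (hn : LS n) (hS : LS S) (hD : LS D) :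
    LS (fun z => sd' (n z) (S z) (D z)) := by
  have hg : LS (fun z => gR (n z)) := LS_gR hn
  have h1 : LS (fun p : α × ℕ => le01 ((S p.1 + 1) * capPow (p.2 + 1) (D p.1)
      (gR (n p.1) * gR (n p.1))) (gR (n p.1) * gR (n p.1))) := by
    have hg' : LS (fun p : α × ℕ => gR (n p.1)) := LS.comp (g := fun z => gR (n z)) hg LS.fst
    fun_prop
  refine LS.congr (LS.sum_le (N := fun z => gR (n z) * gR (n z)) (B := fun _ => 1)
    (f := fun z j => le01 ((S z + 1) * capPow (j + 1) (D z)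
      (gR (n z) * gR (n z))) (gR (n z) * gR (n z))) h1 (LS.mul hg hg) (LS.const 1) ?_) ?_
  · intro z i _
    unfold le01
    split_ifs <;> omega
  · intro z
    unfold sd'
    apply sum_congr rfl
    intro j _
    unfold capPow
    rcases le_total ((j + 1) ^ D z) (gR (n z) * gR (n z) + 1) with h2 | h2
    · rw [min_eq_left h2]
    · rw [min_eq_right h2]
      unfold le01
      rw [if_neg, if_neg]
      · nlinarith
      · nlinarith

/-- **Packet MLS.** -/
theorem MLS (hO : OKS_stmt) : MLS_stmt := by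
  intro α _ eA eN eW st x y S D o heA heN heW hst hx hy hS hD ho
  have hn : LS (fun z => Nat.log 2 (x z)) := LS.log2 hx
  have hg : LS (fun z => gR (Nat.log 2 (x z))) := LS_gR hn
  have hS' : LS (fun z => sS (Nat.log 2 (x z)) (S z)) := LS.min hS (LS.sub hg (LS.const 1))
  have hκ : LS (fun z => kap (Nat.log 2 (x z))) := by
    unfold kap
    fun_prop
  have hD' : LS (fun z => dm (Nat.log 2 (x z)) (D z)) := LS.min hD (LS.ll hn)
  have hC : LS (fun z => CR (x z)) := LS_CR hx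
  have hd : LS (fun z => sd' (Nat.log 2 (x z)) (sS (Nat.log 2 (x z)) (S z))
      (dm (Nat.log 2 (x z)) (D z))) := LS_sd hn hS' hD'
  have hβ : LS (fun z => 2 ^ (2 * ll (Nat.log 2 (x z)))) :=
    LS.pow_of_le (f := fun _ => 2) (LS.const 2) (LS.mul (LS.const 2) (LS.ll hn)) hC fun z => by
      apply two_pow_le_CR
      have h1 := ll_le (Nat.log 2 (x z))
      omega
  have hgg : ∀ z, 2 ^ (gR (Nat.log 2 (x z)) * gR (Nat.log 2 (x z))) ≤ CR (x z) := fun z =>
    two_pow_le_CR ((gR_sq_le _).trans (by omega))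
  have hκD : ∀ z, kap (Nat.log 2 (x z)) * dm (Nat.log 2 (x z)) (D z) ≤
      100 * (Nat.log 2 (x z) + 1) := by
    intro z
    have h1 := ll_sq_le (Nat.log 2 (x z))
    have h2 := ll_pos (Nat.log 2 (x z))
    have h3 : dm (Nat.log 2 (x z)) (D z) ≤ ll (Nat.log 2 (x z)) := min_le_right _ _
    have h4 : kap (Nat.log 2 (x z)) ≤ 10 * ll (Nat.log 2 (x z)) := by
      unfold kap
      omega
    calc _ ≤ (10 * ll (Nat.log 2 (x z))) * ll (Nat.log 2 (x z)) := Nat.mul_le_mul h4 h3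
      _ = 10 * (ll (Nat.log 2 (x z)) * ll (Nat.log 2 (x z))) := by ring
      _ ≤ _ := by omega
  have hsd := fun z => sd_spec hO (Nat.log 2 (x z)) (S z) (dm (Nat.log 2 (x z)) (D z))
  have hP : PF (fun z => prm (eA z) (eN z) (eW z) (st z) (x z) (y z) (S z) (D z) (o z))
      (fun z => CR (x z)) :=
    { eA := heA
      eN := heN
      eW := heW
      st := hst
      hΛ := LS.LW hn
      hβ := hβ
      hB := hC
      x := hx
      y := hy
      S := hS'
      κ := hκ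
      D := hD'
      d := hd
      o := LS.mod ho hd
      Tc := (LS.add hn (LS.const 2)).pow_const 4
      σ := LS.add (LS.min (LS.add hS' (LS.mul hκ hD')) (LS.sub hg (LS.const 1))) (LS.const 1)
      a := LS.mul hg hg
      hC := hC
      b1 := fun z => by
        show 0 < 2 ^ (2 * ll (Nat.log 2 (x z)))
        positivity
      b2 := fun z => by
        refine (beta_pow_le (x z)).trans ?_
        unfold CM CR
        exact Nat.pow_le_pow_right (by omega) (by norm_num)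
      b3 := fun z => by
        refine le_trans (Nat.pow_le_pow_right (by norm_num) ?_) (hgg z)
        exact (sS_lt _ _).trans (gR_le_sq _)
      b4 := fun z => by
        apply two_pow_le_CR
        show kap (Nat.log 2 (x z)) ≤ _
        have h1 := ll_le (Nat.log 2 (x z))
        unfold kap
        omega
      b5 := fun z => by
        rw [← pow_mul]
        exact two_pow_le_CR (hκD z)
      b6 := fun z => (hsd z).1
      b7 := fun z => by
        have h1 := (hsd z).2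
        have h2 : sd' (Nat.log 2 (x z)) (sS (Nat.log 2 (x z)) (S z))
            (dm (Nat.log 2 (x z)) (D z)) ^ dm (Nat.log 2 (x z)) (D z) ≤
            gR (Nat.log 2 (x z)) * gR (Nat.log 2 (x z)) :=
          (Nat.le_mul_of_pos_left _ (Nat.succ_pos _)).trans h1
        exact (h2.trans Nat.lt_two_pow_self.le).trans (hgg z)
      b8 := fun z => by
        rw [← pow_mul]
        exact le_trans (Nat.pow_le_pow_right (by norm_num) (hsd z).2) (hgg z)
      b9 := fun z => by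
        refine le_trans (Nat.pow_le_pow_right (by norm_num) ?_) (hgg z)
        refine le_trans ?_ (gR_le_sq _)
        show min (sS (Nat.log 2 (x z)) (S z) + kap (Nat.log 2 (x z)) *
          dm (Nat.log 2 (x z)) (D z)) (gR (Nat.log 2 (x z)) - 1) + 1 ≤ _
        have h1 := gR_pos (Nat.log 2 (x z))
        have h2 : min (sS (Nat.log 2 (x z)) (S z) + kap (Nat.log 2 (x z)) *
          dm (Nat.log 2 (x z)) (D z)) (gR (Nat.log 2 (x z)) - 1) ≤ gR (Nat.log 2 (x z)) - 1 :=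
          min_le_right _ _
        omega
      b10 := hgg }
  have hP1 := hP.comp (π := fun p : α × ℕ => p.1) LS.fst
  have hP2 := hP.comp (π := fun p : α × ℕ × ℕ => p.1) LS.fst
  have hq2 : LS (fun p : α × ℕ × ℕ => p.2.1) := by fun_prop
  have hv2 : LS (fun p : α × ℕ × ℕ => p.2.2) := by fun_prop
  exact ⟨hP.σ, hP.d, hP1.wq LS.snd, hP1.fA LS.snd, hP2.fN hq2 hv2, hP2.fW hq2 hv2, hP.q0, hP.M0⟩

end Pool.Agent.Helper54.OH
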